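import Pool.Agent.U588.LBP.Stm

set_option autoImplicit false
set_option linter.unusedSectionVars false

/-! Project LBP, package MRZ (helper981): resolutions by matrices. -/

namespace Pool.Agent.U981.LBP

open U722.FF V7N CategoryTheory Pool.Agent.U588.LBP
open scoped TensorProduct

attribute [local instance] V7N.bcF_additive VN831.bcFunctor_additive

section

variable {G U : Type} [Group G] [Ring U] (c : G →* U) (ι : Type)

theorem ev_single (g : G) (n : ℤ) : evM c (MonoidAlgebra.single g n) = (n : U) * c g := by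
  have h : evM c (MonoidAlgebra.single g n) =
      MonoidAlgebra.lift ℤ U G c (MonoidAlgebra.single g n) := rfl
  rw [h, MonoidAlgebra.lift_single, zsmul_eq_mul]

/-- the additive map on rows -/
noncomputable def eL : (ι → MonoidAlgebra ℤ G) →+ (ι → U) where
  toFun v := fun k => evM c (v k)
  map_zero' := by funext k; exact map_zero (evM c)
  map_add' v w := by funext k; exact map_add (evM c) _ _

noncomputable def eF : U ⊗[ℤ] (ι → MonoidAlgebra ℤ G) →ₗ[U] (ι → U) :=
  TensorProduct.AlgebraTensorModule.lift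
    (LinearMap.toSpanSingleton U ((ι → MonoidAlgebra ℤ G) →ₗ[ℤ] (ι → U)) (eL c ι).toIntLinearMap)

theorem eF_tmul (x : U) (v : ι → MonoidAlgebra ℤ G) (k : ι) :
    eF c ι (x ⊗ₜ[ℤ] v) k = x * evM c (v k) := rfl

theorem eF_rel : bcR c (ι → MonoidAlgebra ℤ G) ≤ LinearMap.ker (eF c ι) := by
  rw [bcR, Submodule.span_le]
  rintro z ⟨x, g, v, rfl⟩
  show _ ∈ LinearMap.ker (eF c ι)
  rw [LinearMap.mem_ker, map_sub, sub_eq_zero]
  funext k
  rw [eF_tmul, eF_tmul, Pi.smul_apply, smul_eq_mul, map_mul, ev_single, Int.cast_one, one_mul,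
    mul_assoc]

noncomputable def eE : BCG c (ι → MonoidAlgebra ℤ G) →ₗ[U] (ι → U) :=
  Submodule.liftQ _ (eF c ι) (eF_rel c ι)

theorem eE_mk (x : U) (v : ι → MonoidAlgebra ℤ G) (k : ι) :
    eE c ι (Submodule.Quotient.mk (x ⊗ₜ[ℤ] v)) k = x * evM c (v k) := rfl

variable [Fintype ι]

theorem smul_mk {P : Type} [AddCommGroup P] [Module (MonoidAlgebra ℤ G) P]
    (m : MonoidAlgebra ℤ G) (q : P) :
    evM c m • (Submodule.Quotient.mk ((1 : U) ⊗ₜ[ℤ] q) : BCG c P) =
      Submodule.Quotient.mk ((1 : U) ⊗ₜ[ℤ] (m • q)) := by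
  induction m using MonoidAlgebra.induction_linear with
  | zero => rw [map_zero, zero_smul, zero_smul, TensorProduct.tmul_zero, Submodule.Quotient.mk_zero]
  | add x y hx hy =>
    rw [map_add, add_smul, add_smul, hx, hy, TensorProduct.tmul_add, Submodule.Quotient.mk_add]
  | single g n =>
    have h1 : (Submodule.Quotient.mk (((1 : U) * c g) ⊗ₜ[ℤ] q) : BCG c P) =
        Submodule.Quotient.mk ((1 : U) ⊗ₜ[ℤ] ((MonoidAlgebra.single g (1 : ℤ)) • q)) := by
      rw [Submodule.Quotient.eq]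
      exact Submodule.subset_span ⟨1, g, q, rfl⟩
    have h2 : (MonoidAlgebra.single g n : MonoidAlgebra ℤ G) =
        n • MonoidAlgebra.single g (1 : ℤ) := by
      rw [MonoidAlgebra.smul_single, smul_eq_mul, mul_one]
    have h3 : (MonoidAlgebra.single g n : MonoidAlgebra ℤ G) • q =
        n • ((MonoidAlgebra.single g (1 : ℤ) : MonoidAlgebra ℤ G) • q) := by
      rw [h2, smul_assoc]
    rw [h3, TensorProduct.tmul_smul, ev_single, mul_smul]
    have h4 : c g • (Submodule.Quotient.mk ((1 : U) ⊗ₜ[ℤ] q) : BCG c P) =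
        Submodule.Quotient.mk (((1 : U) * c g) ⊗ₜ[ℤ] q) := by
      rw [← Submodule.Quotient.mk_smul, TensorProduct.smul_tmul', smul_eq_mul, mul_one, one_mul]
    rw [h4, h1, Int.cast_smul_eq_zsmul]
    rfl

noncomputable def eD [DecidableEq ι] : (ι → U) →ₗ[U] BCG c (ι → MonoidAlgebra ℤ G) :=
  Fintype.linearCombination U (fun i : ι => (Submodule.Quotient.mk
    ((1 : U) ⊗ₜ[ℤ] (Pi.single i 1 : ι → MonoidAlgebra ℤ G)) : BCG c (ι → MonoidAlgebra ℤ G)))

theorem eD_eE [DecidableEq ι] : (eD c ι).comp (eE c ι) = LinearMap.id := by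
  apply bc_ind
  intro p
  rw [LinearMap.comp_apply, LinearMap.id_apply]
  unfold eD
  rw [Fintype.linearCombination_apply]
  have h1 : p = ∑ i, p i • (Pi.single i 1 : ι → MonoidAlgebra ℤ G) := by
    funext k
    rw [Finset.sum_apply, Finset.sum_eq_single k]
    · simp
    · intro i _ hi
      rw [Pi.smul_apply, Pi.single_eq_of_ne (Ne.symm hi), smul_zero]
    · intro h
      exact absurd (Finset.mem_univ k) h
  conv_rhs => rw [h1, TensorProduct.tmul_sum]
  have h2 : (Submodule.Quotient.mk (∑ i, (1 : U) ⊗ₜ[ℤ] (p i •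
      (Pi.single i 1 : ι → MonoidAlgebra ℤ G))) : BCG c (ι → MonoidAlgebra ℤ G)) =
      ∑ i, Submodule.Quotient.mk ((1 : U) ⊗ₜ[ℤ] (p i •
      (Pi.single i 1 : ι → MonoidAlgebra ℤ G))) := map_sum (Submodule.mkQ _) _ _
  rw [h2]
  refine Finset.sum_congr rfl fun i _ => ?_
  rw [eE_mk, one_mul, smul_mk]

theorem eE_eD [DecidableEq ι] (u : ι → U) : eE c ι (eD c ι u) = u := by
  unfold eD
  rw [Fintype.linearCombination_apply, map_sum]
  funext k
  rw [Finset.sum_apply, Finset.sum_eq_single k]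
  · rw [map_smul, Pi.smul_apply, eE_mk, Pi.single_eq_same, map_one, mul_one, smul_eq_mul, mul_one]
  · intro i _ hi
    rw [map_smul, Pi.smul_apply, eE_mk, Pi.single_eq_of_ne (Ne.symm hi), map_zero, mul_zero,
      smul_zero]
  · intro h
    exact absurd (Finset.mem_univ k) h

theorem eE_inj [DecidableEq ι] : Function.Injective (eE c ι) := by
  intro a b h
  have h1 : ∀ z, eD c ι (eE c ι z) = z := fun z => LinearMap.congr_fun (eD_eE c ι) z
  rw [← h1 a, h, h1 b]

theorem nat (κ : Type) [Fintype κ] (d : Matrix ι κ (MonoidAlgebra ℤ G))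
    (z : BCG c (ι → MonoidAlgebra ℤ G)) :
    eE c κ (bcM c d.vecMulLinear z) = Matrix.vecMul (eE c ι z) (d.map (evM c)) := by
  obtain ⟨z, rfl⟩ := Submodule.Quotient.mk_surjective _ z
  induction z using TensorProduct.induction_on with
  | zero =>
    rw [Submodule.Quotient.mk_zero, map_zero, map_zero, map_zero, Matrix.zero_vecMul]
  | tmul x v =>
    rw [bcM_mk]
    funext k
    rw [eE_mk, Matrix.vecMulLinear_apply]
    simp only [Matrix.vecMul, dotProduct, eE_mk, Matrix.map_apply, map_sum, map_mul,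
      Finset.mul_sum, mul_assoc]
  | add x y hx hy =>
    rw [Submodule.Quotient.mk_add, map_add, map_add, hx, hy, map_add, Matrix.add_vecMul]

end

theorem t_MRZ (h : S_LD) : S_MRZ := by
  classical
  intro G U _ _ c k M _ _ hMR n hn
  obtain ⟨N, ι, hι, d, ε, -, hε, h0, h1, h2, h3⟩ := hMR
  have hLD := h G U c M (fun n => ι n → MonoidAlgebra ℤ G) (fun n => (d n).vecMulLinear) ε
    (fun n => inferInstance) hε (fun v => h0 v) (fun n v => h1 n v)
  cases n with
  | zero =>
    rw [hLD.2]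
    intro z
    obtain ⟨w, hw⟩ := h2 (by omega) (eE c (ι 0) z)
    refine ⟨eD c (ι 1) w, eE_inj c (ι 0) ?_⟩
    rw [nat, eE_eD, hw]
  | succ n =>
    rw [hLD.1 n]
    intro z hz
    have e1 := nat c (ι (n + 1)) (ι n) (d n) z
    rw [hz, map_zero] at e1
    obtain ⟨w, hw⟩ := h3 n hn (eE c (ι (n + 1)) z) e1.symm
    refine ⟨eD c (ι (n + 2)) w, eE_inj c (ι (n + 1)) ?_⟩
    rw [nat, eE_eD, hw]

end Pool.Agent.U981.LBP
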